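import Pool.Agent.N870.EG.Stm

/-!
# EG/SOMK: a convergent series (after the file SOM of project FK)
-/

set_option autoImplicit false

namespace Pool.Agent.N199.EG

open Finset

/-- the bound `B ^ ω(g) ≤ B ^ (B ^ 2) √g` -/
theorem omega_bound (B : ℕ) (hB : 1 ≤ B) (g : ℕ) (hg : g ≠ 0) :
    (B : ℝ) ^ g.primeFactors.card ≤ (B : ℝ) ^ (B ^ 2) * Real.sqrt g := by
  classical
  have hB1 : (1 : ℝ) ≤ B := by exact_mod_cast hB
  set P1 := g.primeFactors.filter (fun p => p < B ^ 2) with hP1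
  set P2 := g.primeFactors.filter (fun p => ¬ p < B ^ 2) with hP2
  have hcard : g.primeFactors.card = P1.card + P2.card := (card_filter_add_card_filter_not _).symm
  have h1 : P1.card ≤ B ^ 2 := by
    have : P1 ⊆ range (B ^ 2) := fun p hp => mem_range.2 (mem_filter.1 hp).2
    simpa using card_le_card this
  have h2 : (B : ℝ) ^ P2.card ≤ Real.sqrt g := by
    have h3 : (B : ℝ) ^ P2.card ≤ ∏ p ∈ P2, Real.sqrt p := by
      rw [← prod_const]
      apply prod_le_prod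
      · intro p _; positivity
      · intro p hp
        have h4 : ¬ p < B ^ 2 := (mem_filter.1 hp).2
        apply Real.le_sqrt_of_sq_le
        exact_mod_cast not_lt.1 h4
    have h4 : ∏ p ∈ P2, Real.sqrt p = Real.sqrt (∏ p ∈ P2, (p : ℝ)) := by
      rw [Real.sqrt_eq_rpow, ← Real.finsetProd_rpow]
      · exact prod_congr rfl fun p _ => Real.sqrt_eq_rpow _
      · intro p _; positivity
    rw [h4] at h3
    refine h3.trans (Real.sqrt_le_sqrt ?_)
    have h5 : ∏ p ∈ P2, p ∣ g := (prod_dvd_prod_of_subset _ _ _ (filter_subset _ _)).trans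
      (Nat.prod_primeFactors_dvd g)
    have h6 := Nat.le_of_dvd (Nat.pos_of_ne_zero hg) h5
    have h7 : ((∏ p ∈ P2, p : ℕ) : ℝ) ≤ (g : ℝ) := Nat.cast_le.2 h6
    rwa [Nat.cast_prod] at h7
  rw [hcard, pow_add]
  have h5 : (B : ℝ) ^ P1.card ≤ (B : ℝ) ^ (B ^ 2) := pow_le_pow_right₀ hB1 h1
  gcongr

/-- EG/SOMK -/
theorem t_SOMK : Pool.Agent.N870.EG.S_SOMK := by
  intro A
  have hs : Summable fun g : ℕ => ((g : ℝ) ^ (3 / 2 : ℝ))⁻¹ := by
    rw [Real.summable_nat_rpow_inv]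
    norm_num
  obtain ⟨B, hB, hAB⟩ : ∃ B : ℕ, 1 ≤ B ∧ (A : ℝ) ≤ B := ⟨A + 1, by omega, by push_cast; linarith⟩
  obtain ⟨D, hD0, hD⟩ : ∃ D : ℝ, 0 ≤ D ∧ D = (B : ℝ) ^ (B ^ 2) := ⟨_, by positivity, rfl⟩
  refine ⟨D * ∑' g : ℕ, ((g : ℝ) ^ (3 / 2 : ℝ))⁻¹, ?_, fun n => ?_⟩
  · apply mul_nonneg hD0
    exact tsum_nonneg fun g => by positivity
  · calc ∑ g ∈ Icc 1 n, (A : ℝ) ^ g.primeFactors.card / (g : ℝ) ^ 2
        ≤ ∑ g ∈ Icc 1 n, D * ((g : ℝ) ^ (3 / 2 : ℝ))⁻¹ := by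
          refine sum_le_sum fun g hg => ?_
          have hg1 := (mem_Icc.1 hg).1
          have hg0 : 0 < (g : ℝ) := by exact_mod_cast hg1
          have h1 := omega_bound B hB g (by omega)
          rw [← hD] at h1
          have h2 : (A : ℝ) ^ g.primeFactors.card ≤ (B : ℝ) ^ g.primeFactors.card :=
            pow_le_pow_left₀ (by positivity) hAB _
          rw [div_le_iff₀ (by positivity)]
          refine (h2.trans h1).trans (le_of_eq ?_)
          rw [mul_assoc]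
          congr 1
          rw [Real.sqrt_eq_rpow, ← Real.rpow_neg hg0.le, ← Real.rpow_natCast (g : ℝ) 2,
            ← Real.rpow_add hg0]
          norm_num
      _ = D * ∑ g ∈ Icc 1 n, ((g : ℝ) ^ (3 / 2 : ℝ))⁻¹ := by rw [mul_sum]
      _ ≤ D * ∑' g : ℕ, ((g : ℝ) ^ (3 / 2 : ℝ))⁻¹ := by
          apply mul_le_mul_of_nonneg_left _ hD0
          exact hs.sum_le_tsum _ fun g _ => by positivity

end Pool.Agent.N199.EG
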